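import Pool.Agent.TH612.GS.Stm

set_option autoImplicit false

/-! # GS, DIAG: diagonal terms -/

namespace Pool.Agent.TH509.GS

open Complex Filter Topology MeasureTheory Set
open Pool.Agent.TH612.GS

noncomputable section

/-- all powers as exponentials -/
lemma cpow_exp {n : ℕ} (hn : 1 ≤ n) (s : ℂ) :
    (n : ℂ) ^ s = Complex.exp ((Real.log n : ℝ) * s) := by
  have h0 : (n : ℂ) ≠ 0 := by
    have : n ≠ 0 := by omega
    exact_mod_cast this
  rw [Complex.cpow_def_of_ne_zero h0, ← Complex.natCast_log]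

lemma rpow_exp {n : ℕ} (hn : 1 ≤ n) :
    (((n : ℝ) ^ (-(1 / 2 : ℝ)) : ℝ) : ℂ) = Complex.exp ((Real.log n : ℝ) * (-(1 / 2))) := by
  rw [Complex.ofReal_cpow (Nat.cast_nonneg n)]
  rw [Complex.ofReal_natCast, cpow_exp hn]
  congr 2
  push_cast
  ring

lemma split_l {n : ℕ} (hn : 1 ≤ n) (t a : ℝ) :
    (n : ℂ) ^ (-(1 / 2 + I * ((t + a : ℝ) : ℂ))) =
      (((n : ℝ) ^ (-(1 / 2 : ℝ)) : ℝ) : ℂ) * (n : ℂ) ^ (-(I * a)) *
        Complex.exp (I * t * (-(Real.log n) : ℝ)) := by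
  rw [rpow_exp hn, cpow_exp hn, cpow_exp hn, ← Complex.exp_add, ← Complex.exp_add]
  congr 1
  push_cast
  ring

lemma split_r {n : ℕ} (hn : 1 ≤ n) (t a : ℝ) :
    (starRingEnd ℂ) ((n : ℂ) ^ (-(1 / 2 + I * ((t + a : ℝ) : ℂ)))) =
      (((n : ℝ) ^ (-(1 / 2 : ℝ)) : ℝ) : ℂ) * (n : ℂ) ^ (I * a) *
        Complex.exp (I * t * (Real.log n : ℝ)) := by
  rw [rpow_exp hn, cpow_exp hn, cpow_exp hn, ← Complex.exp_add, ← Complex.exp_add,
    ← Complex.exp_conj]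
  congr 1
  simp only [map_mul, map_neg, map_add, map_div₀, map_one, map_ofNat, Complex.conj_ofReal,
    Complex.conj_I]
  push_cast
  ring

lemma prod_exp {k : ℕ} (x : Fin k → ℝ) (t : ℝ) :
    ∏ j, Complex.exp (I * t * (x j : ℝ)) = Complex.exp (I * t * ((∑ j, x j : ℝ) : ℂ)) := by
  rw [← Complex.exp_sum, Complex.ofReal_sum, Finset.mul_sum]

variable {k : ℕ}

/-- the factors -/
def EE (γ : Fin k ⊕ Fin k → ℝ) (t : ℝ) : Fin k ⊕ Fin k → ℕ → ℂ
  | Sum.inl j, n => (n : ℂ) ^ (-(1 / 2 + I * ((t + γ (Sum.inl j) : ℝ) : ℂ)))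
  | Sum.inr j, n => (starRingEnd ℂ) ((n : ℂ) ^ (-(1 / 2 + I * ((t + γ (Sum.inr j) : ℝ) : ℂ))))

/-- the frequency -/
def th (ν : Fin k ⊕ Fin k → ℕ) : ℝ :=
  (∑ j, Real.log (ν (Sum.inr j))) - ∑ j, Real.log (ν (Sum.inl j))

lemma prod_EE (γ : Fin k ⊕ Fin k → ℝ) (t : ℝ) (ν : Fin k ⊕ Fin k → ℕ) (hν : ∀ i, 1 ≤ ν i) :
    ∏ i, EE γ t i (ν i) = (wt ν : ℂ) * ch ν γ * Complex.exp (I * t * (th ν : ℝ)) := by
  rw [Fintype.prod_sum_type]
  have h1 : ∏ j, EE γ t (Sum.inl j) (ν (Sum.inl j)) =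
      (∏ j, (((ν (Sum.inl j) : ℝ) ^ (-(1 / 2 : ℝ)) : ℝ) : ℂ)) *
        (∏ j, (ν (Sum.inl j) : ℂ) ^ (-(I * γ (Sum.inl j)))) *
        Complex.exp (I * t * ((∑ j, -(Real.log (ν (Sum.inl j))) : ℝ) : ℂ)) := by
    rw [← prod_exp, ← Finset.prod_mul_distrib, ← Finset.prod_mul_distrib]
    exact Finset.prod_congr rfl fun j _ => split_l (hν _) t _
  have h2 : ∏ j, EE γ t (Sum.inr j) (ν (Sum.inr j)) =
      (∏ j, (((ν (Sum.inr j) : ℝ) ^ (-(1 / 2 : ℝ)) : ℝ) : ℂ)) *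
        (∏ j, (ν (Sum.inr j) : ℂ) ^ (I * γ (Sum.inr j))) *
        Complex.exp (I * t * ((∑ j, (Real.log (ν (Sum.inr j))) : ℝ) : ℂ)) := by
    rw [← prod_exp, ← Finset.prod_mul_distrib, ← Finset.prod_mul_distrib]
    exact Finset.prod_congr rfl fun j _ => split_r (hν _) t _
  have h3 : (wt ν : ℂ) = (∏ j, (((ν (Sum.inl j) : ℝ) ^ (-(1 / 2 : ℝ)) : ℝ) : ℂ)) *
      ∏ j, (((ν (Sum.inr j) : ℝ) ^ (-(1 / 2 : ℝ)) : ℝ) : ℂ) := by
    unfold wt
    rw [← Real.finset_prod_rpow _ _ fun i _ => Nat.cast_nonneg (ν i), Fintype.prod_sum_type]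
    push_cast
    rfl
  have h4 : Complex.exp (I * t * (th ν : ℝ)) =
      Complex.exp (I * t * ((∑ j, -(Real.log (ν (Sum.inl j))) : ℝ) : ℂ)) *
        Complex.exp (I * t * ((∑ j, (Real.log (ν (Sum.inr j))) : ℝ) : ℂ)) := by
    rw [← Complex.exp_add]
    congr 1
    unfold th
    rw [Finset.sum_neg_distrib]
    push_cast
    ring
  rw [h1, h2, h3, h4]
  unfold ch
  ring

lemma integrand_eq (N : ℕ) (γ : Fin k ⊕ Fin k → ℝ) (t : ℝ) :
    (∏ j : Fin k, PN N (t + γ (Sum.inl j)) * (starRingEnd ℂ) (PN N (t + γ (Sum.inr j)))) =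
      ∑ ν ∈ tup k N, (wt ν : ℂ) * ch ν γ * Complex.exp (I * t * (th ν : ℝ)) := by
  have h1 : (∏ j : Fin k, PN N (t + γ (Sum.inl j)) *
      (starRingEnd ℂ) (PN N (t + γ (Sum.inr j)))) =
      ∏ i : Fin k ⊕ Fin k, ∑ n ∈ Finset.Icc 1 N, EE γ t i n := by
    rw [Fintype.prod_sum_type, Finset.prod_mul_distrib]
    congr 1
    refine Finset.prod_congr rfl fun j _ => ?_
    unfold PN zN
    rw [map_sum]
    rfl
  rw [h1, Finset.prod_univ_sum]
  refine Finset.sum_congr rfl fun ν hν => prod_EE γ t ν fun i => ?_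
  have := Fintype.mem_piFinset.1 hν i
  exact (Finset.mem_Icc.1 this).1

lemma log_gap {A B : ℕ} (hA : 1 ≤ A) (hAB : A < B) {M : ℝ} (hM : (B : ℝ) ≤ M) :
    1 / M ≤ Real.log B - Real.log A := by
  have hA0 : (0 : ℝ) < A := by exact_mod_cast hA
  have hB0 : (0 : ℝ) < B := by
    have : 0 < B := by omega
    exact_mod_cast this
  rw [← Real.log_div hB0.ne' hA0.ne']
  refine le_trans ?_ (Real.one_sub_inv_le_log_of_pos (div_pos hB0 hA0))
  rw [inv_div]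
  have h1 : (A : ℝ) + 1 ≤ B := by exact_mod_cast hAB
  have h2 : 1 - (A : ℝ) / B = (B - A) / B := by field_simp
  rw [h2]
  calc 1 / M ≤ 1 / (B : ℝ) := one_div_le_one_div_of_le hB0 hM
    _ ≤ (B - A) / B := by
      apply div_le_div_of_nonneg_right _ hB0.le
      linarith

lemma th_eq (ν : Fin k ⊕ Fin k → ℕ) (hν : ∀ i, 1 ≤ ν i) :
    th ν = Real.log ((∏ j, ν (Sum.inr j) : ℕ) : ℝ) - Real.log ((∏ j, ν (Sum.inl j) : ℕ) : ℝ) := by
  unfold th
  rw [Nat.cast_prod, Nat.cast_prod, Real.log_prod, Real.log_prod]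
  · intro i _
    have := hν (Sum.inl i)
    have h2 : ν (Sum.inl i) ≠ 0 := by omega
    exact_mod_cast h2
  · intro i _
    have := hν (Sum.inr i)
    have h2 : ν (Sum.inr i) ≠ 0 := by omega
    exact_mod_cast h2

lemma one_le_prod_nat {ι : Type*} [Fintype ι] (f : ι → ℕ) (h : ∀ i, 1 ≤ f i) :
    1 ≤ ∏ i, f i := by
  have h2 : (0 : ℕ) < ∏ i, f i := Finset.prod_pos fun i _ => h i
  exact h2

lemma th_lower {N : ℕ} (ν : Fin k ⊕ Fin k → ℕ) (hν : ν ∈ tup k N)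
    (hne : ∏ j, ν (Sum.inl j) ≠ ∏ j, ν (Sum.inr j)) : 1 / (N : ℝ) ^ k ≤ |th ν| := by
  have h1 : ∀ i, 1 ≤ ν i := fun i => (Finset.mem_Icc.1 (Fintype.mem_piFinset.1 hν i)).1
  have h2 : ∀ i, ν i ≤ N := fun i => (Finset.mem_Icc.1 (Fintype.mem_piFinset.1 hν i)).2
  have hA : 1 ≤ ∏ j, ν (Sum.inl j) := one_le_prod_nat _ fun j => h1 _
  have hB : 1 ≤ ∏ j, ν (Sum.inr j) := one_le_prod_nat _ fun j => h1 _
  have hA' : ∏ j, ν (Sum.inl j) ≤ N ^ k := by
    have := Finset.prod_le_pow_card Finset.univ (fun j : Fin k => ν (Sum.inl j)) N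
      fun j _ => h2 _
    simpa using this
  have hB' : ∏ j, ν (Sum.inr j) ≤ N ^ k := by
    have := Finset.prod_le_pow_card Finset.univ (fun j : Fin k => ν (Sum.inr j)) N
      fun j _ => h2 _
    simpa using this
  rw [th_eq ν h1]
  rcases lt_or_gt_of_ne hne with h | h
  · refine le_trans ?_ (le_abs_self _)
    exact log_gap hA h (by exact_mod_cast hB')
  · rw [abs_sub_comm]
    refine le_trans ?_ (le_abs_self _)
    exact log_gap hB h (by exact_mod_cast hA')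

lemma norm_int_exp {θ : ℝ} (hθ : θ ≠ 0) (S : ℝ) :
    ‖∫ t in (0:ℝ)..S, Complex.exp (I * t * (θ : ℝ))‖ ≤ 2 / |θ| := by
  have hc : I * (θ : ℂ) ≠ 0 := mul_ne_zero I_ne_zero (by exact_mod_cast hθ)
  have e : ∀ t : ℝ, Complex.exp (I * t * (θ : ℝ)) = Complex.exp (I * θ * t) := fun t => by
    congr 1; ring
  simp only [e]
  rw [integral_exp_mul_complex hc, norm_div]
  have h1 : ‖I * (θ : ℂ)‖ = |θ| := by simp
  rw [h1]
  apply div_le_div_of_nonneg_right _ (abs_nonneg θ)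
  refine (norm_sub_le _ _).trans ?_
  have h2 : ∀ x : ℝ, ‖Complex.exp (I * θ * x)‖ = 1 := fun x => by
    have : I * (θ : ℂ) * x = ((θ * x : ℝ) : ℂ) * I := by push_cast; ring
    rw [this, Complex.norm_exp_ofReal_mul_I]
  rw [h2, h2]
  norm_num

lemma norm_ch {ν : Fin k ⊕ Fin k → ℕ} (hν : ∀ i, 1 ≤ ν i) (γ : Fin k ⊕ Fin k → ℝ) :
    ‖ch ν γ‖ = 1 := by
  unfold ch
  rw [norm_mul, norm_prod, norm_prod]
  have h1 : ∀ (n : ℕ) (a : ℂ), 1 ≤ n → a.re = 0 → ‖(n : ℂ) ^ a‖ = 1 := by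
    intro n a hn ha
    rw [Complex.norm_natCast_cpow_of_pos (by omega), ha, Real.rpow_zero]
  rw [Finset.prod_eq_one fun j _ => h1 _ _ (hν _) (by simp),
    Finset.prod_eq_one fun j _ => h1 _ _ (hν _) (by simp), one_mul]

lemma wt_bd {ν : Fin k ⊕ Fin k → ℕ} (hν : ∀ i, 1 ≤ ν i) : 0 ≤ wt ν ∧ wt ν ≤ 1 := by
  unfold wt
  have h1 : (1 : ℝ) ≤ ∏ i, (ν i : ℝ) := by
    have : 1 ≤ ∏ i, ν i := one_le_prod_nat _ hν
    exact_mod_cast this
  exact ⟨by positivity, Real.rpow_le_one_of_one_le_of_nonpos h1 (by norm_num)⟩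

theorem t_DIAG : Pool.Agent.TH612.GS.S_DIAG := by
  classical
  intro k N S γ hN hS
  have hpos : ∀ ν ∈ tup k N, ∀ i, 1 ≤ ν i := fun ν hν i =>
    (Finset.mem_Icc.1 (Fintype.mem_piFinset.1 hν i)).1
  have e1 : (∫ t in (0:ℝ)..S, ∏ j : Fin k, PN N (t + γ (Sum.inl j)) *
      (starRingEnd ℂ) (PN N (t + γ (Sum.inr j)))) =
      ∑ ν ∈ tup k N, (wt ν : ℂ) * ch ν γ *
        ∫ t in (0:ℝ)..S, Complex.exp (I * t * (th ν : ℝ)) := by
    simp_rw [integrand_eq]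
    rw [intervalIntegral.integral_finsetSum]
    · refine Finset.sum_congr rfl fun ν _ => ?_
      exact intervalIntegral.integral_const_mul _ _
    · intro ν _
      apply Continuous.intervalIntegrable
      fun_prop
  have e2 : (S : ℂ) * SN N γ = ∑ ν ∈ tup k N,
      if ∏ j, ν (Sum.inl j) = ∏ j, ν (Sum.inr j) then (S : ℂ) * ((wt ν : ℂ) * ch ν γ) else 0 := by
    unfold SN
    rw [Finset.mul_sum]
    refine Finset.sum_congr rfl fun ν _ => ?_
    split_ifs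
    · rfl
    · rw [mul_zero]
  rw [e1, e2, ← Finset.sum_sub_distrib]
  have hN0 : (0 : ℝ) < N := by exact_mod_cast hN
  have hterm : ∀ ν ∈ tup k N, ‖(wt ν : ℂ) * ch ν γ *
        (∫ t in (0:ℝ)..S, Complex.exp (I * t * (th ν : ℝ))) -
      (if ∏ j, ν (Sum.inl j) = ∏ j, ν (Sum.inr j) then (S : ℂ) * ((wt ν : ℂ) * ch ν γ) else 0)‖
      ≤ 2 * (N : ℝ) ^ k := by
    intro ν hν
    have hν1 := hpos ν hν
    split_ifs with h
    · have h0 : th ν = 0 := by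
        rw [th_eq ν hν1, h, sub_self]
      rw [h0]
      simp only [Complex.ofReal_zero, mul_zero, Complex.exp_zero, intervalIntegral.integral_const,
        sub_zero, Complex.real_smul, mul_one]
      rw [mul_comm (S : ℂ), sub_self, norm_zero]
      positivity
    · rw [sub_zero, norm_mul, norm_mul, norm_ch hν1, mul_one, Complex.norm_real,
        Real.norm_of_nonneg (wt_bd hν1).1]
      have hl := th_lower ν hν h
      have hth0 : 0 < |th ν| := lt_of_lt_of_le (by positivity) hl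
      have h1 := norm_int_exp (abs_pos.1 hth0) S
      have h2 : 2 / |th ν| ≤ 2 * (N : ℝ) ^ k := by
        rw [div_le_iff₀ hth0]
        have h3 : 1 ≤ (N : ℝ) ^ k * |th ν| := by
          have := mul_le_mul_of_nonneg_left hl (by positivity : (0 : ℝ) ≤ (N : ℝ) ^ k)
          rwa [mul_one_div_cancel (by positivity)] at this
        nlinarith
      calc wt ν * ‖∫ t in (0:ℝ)..S, Complex.exp (I * t * (th ν : ℝ))‖
          ≤ 1 * (2 / |th ν|) := by
            apply mul_le_mul (wt_bd hν1).2 h1 (norm_nonneg _) zero_le_one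
        _ ≤ _ := by rw [one_mul]; exact h2
  refine (norm_sum_le_of_le _ hterm).trans ?_
  rw [Finset.sum_const, nsmul_eq_mul]
  have hcard : (tup k N).card = N ^ (2 * k) := by
    unfold tup
    rw [Fintype.card_piFinset]
    simp [two_mul]
  rw [hcard]
  push_cast
  have : (N : ℝ) ^ (3 * k) = (N : ℝ) ^ (2 * k) * (N : ℝ) ^ k := by
    rw [← pow_add]; congr 1; ring
  rw [this]
  apply le_of_eq
  ring

end

end Pool.Agent.TH509.GS
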